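import Mathlib
import Pool.Agent.W_MP_5f563a_co.Data

set_option autoImplicit false
set_option maxRecDepth 100000

namespace Pool.Agent.Gale

/-- Checker for branching certificates.  `a b c d` are bit masks of the vertices which may not get
colour `0, 1, 2, 3`. -/
def chk (adj : ℕ → ℕ) : T → ℕ → ℕ → ℕ → ℕ → Bool
  | .z, _, _, _, _ => false
  | .n v s t u w, a, b, c, d =>
    (a.testBit v || chk adj s (a ||| adj v) b c d) &&
    ((b.testBit v || chk adj t a (b ||| adj v) c d) &&
    ((c.testBit v || chk adj u a b (c ||| adj v) d) &&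
    (d.testBit v || chk adj w a b c (d ||| adj v))))

theorem chk_sound (adj : ℕ → ℕ) (col : ℕ → Fin 4)
    (h : ∀ i j, (adj i).testBit j = true → col i ≠ col j) :
    ∀ (t : T) (a b c d : ℕ), (∀ j, a.testBit j = true → col j ≠ 0) →
      (∀ j, b.testBit j = true → col j ≠ 1) → (∀ j, c.testBit j = true → col j ≠ 2) →
      (∀ j, d.testBit j = true → col j ≠ 3) → chk adj t a b c d = true → False := by
  have key : ∀ (x : Fin 4) (v m : ℕ), col v = x → (∀ j, m.testBit j = true → col j ≠ x) →
      ∀ j, (m ||| adj v).testBit j = true → col j ≠ x := by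
    intro x v m hv hm j hj
    rw [Nat.testBit_or, Bool.or_eq_true] at hj
    rcases hj with hj | hj
    · exact hm j hj
    · intro hx
      exact h v j hj (hv.trans hx.symm)
  intro t
  induction t with
  | z => intro a b c d _ _ _ _ hc; simp [chk] at hc
  | n v s t u w ihs iht ihu ihw =>
    intro a b c d ha hb hc hd hk
    simp only [chk, Bool.and_eq_true, Bool.or_eq_true] at hk
    obtain ⟨h0, h1, h2, h3⟩ := hk
    have hv : col v = 0 ∨ col v = 1 ∨ col v = 2 ∨ col v = 3 := by
      generalize col v = x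
      revert x; decide
    rcases hv with hv | hv | hv | hv
    · rcases h0 with h0 | h0
      · exact ha v h0 hv
      · exact ihs _ _ _ _ (key 0 v a hv ha) hb hc hd h0
    · rcases h1 with h1 | h1
      · exact hb v h1 hv
      · exact iht _ _ _ _ ha (key 1 v b hv hb) hc hd h1
    · rcases h2 with h2 | h2
      · exact hc v h2 hv
      · exact ihu _ _ _ _ ha hb (key 2 v c hv hc) hd h2
    · rcases h3 with h3 | h3
      · exact hd v h3 hv
      · exact ihw _ _ _ _ ha hb hc (key 3 v d hv hd) h3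

/-- adjacency mask of vertex `i`. -/
def adj (i : ℕ) : ℕ := adjL.getD i 0

/-- `i`-th point. -/
def pt (i : ℕ) : ℤ × ℤ × ℤ := pts.getD i (0, 0, 0)

/-- squared distance of integer points. -/
def D (p q : ℤ × ℤ × ℤ) : ℤ := (p.1 - q.1) ^ 2 + (p.2.1 - q.2.1) ^ 2 + (p.2.2 - q.2.2) ^ 2

theorem tree_ok : chk adj tree (adj 11) (adj 53) (adj 54) 0 = true := by decide +kernel

theorem tri_ok : (adj 11).testBit 53 = true ∧ (adj 11).testBit 54 = true ∧
    (adj 53).testBit 54 = true := by decide +kernel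

theorem adj_ok : (List.range 75).all (fun i => (List.range 75).all (fun j =>
    !(adj i).testBit j || decide (78900000 ≤ D (pt i) (pt j)))) = true := by decide +kernel

theorem adj_bd : adjL.all (fun m => decide (m < 2 ^ 75)) = true ∧ adjL.length = 75 := by
  decide +kernel

theorem diam_ok : (List.range 75).all (fun i => (List.range 75).all (fun j =>
    decide (D (pt i) (pt j) ≤ 100000000))) = true := by decide +kernel

theorem diam_eq : D (pt 12) (pt 13) = 100000000 := by decide +kernel

theorem adj_lt (i j : ℕ) (h : (adj i).testBit j = true) : i < 75 ∧ j < 75 := by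
  have hi : i < 75 := by
    by_contra hi
    have : adj i = 0 := by
      unfold adj
      rw [List.getD_eq_default]
      rw [adj_bd.2]; omega
    rw [this] at h
    simp at h
  refine ⟨hi, ?_⟩
  have hlen : i < adjL.length := by rw [adj_bd.2]; exact hi
  have hm : adj i = adjL[i] := by
    unfold adj
    rw [List.getD_eq_getElem _ _ hlen]
  have hlt : adj i < 2 ^ 75 := by
    have := List.all_eq_true.1 adj_bd.1 (adjL[i]) (List.getElem_mem hlen)
    rw [hm]
    simpa using this
  by_contra hj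
  have : (adj i).testBit j = false := by
    apply Nat.testBit_lt_two_pow
    exact lt_of_lt_of_le hlt (Nat.pow_le_pow_right (by norm_num) (by omega))
  rw [this] at h
  exact absurd h (by simp)

theorem adj_dist (i j : ℕ) (h : (adj i).testBit j = true) : 78900000 ≤ D (pt i) (pt j) := by
  obtain ⟨hi, hj⟩ := adj_lt i j h
  have h1 := List.all_eq_true.1 adj_ok i (List.mem_range.2 hi)
  have h2 := List.all_eq_true.1 h1 j (List.mem_range.2 hj)
  rw [h] at h2
  simpa using h2

theorem pt_dist (i j : ℕ) (hi : i < 75) (hj : j < 75) : D (pt i) (pt j) ≤ 100000000 := by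
  have h1 := List.all_eq_true.1 diam_ok i (List.mem_range.2 hi)
  have h2 := List.all_eq_true.1 h1 j (List.mem_range.2 hj)
  simpa using h2

theorem perm_exists : ∀ x y z : Fin 4, x ≠ y → x ≠ z → y ≠ z →
    ∃ σ : Equiv.Perm (Fin 4), σ x = 0 ∧ σ y = 1 ∧ σ z = 2 := by decide +kernel

/-- The graph is not `4`-colourable. -/
theorem no_col (col : ℕ → Fin 4) (h : ∀ i j, (adj i).testBit j = true → col i ≠ col j) :
    False := by
  obtain ⟨h1, h2, h3⟩ := tri_ok
  obtain ⟨σ, s0, s1, s2⟩ := perm_exists _ _ _ (h _ _ h1) (h _ _ h2) (h _ _ h3)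
  have h' : ∀ i j, (adj i).testBit j = true → σ (col i) ≠ σ (col j) := fun i j hij e =>
    h i j hij (σ.injective e)
  refine chk_sound adj (fun i => σ (col i)) h' tree (adj 11) (adj 53) (adj 54) 0 ?_ ?_ ?_ ?_ tree_ok
  · intro j hj; have := h' 11 j hj; rw [s0] at this; exact this.symm
  · intro j hj; have := h' 53 j hj; rw [s1] at this; exact this.symm
  · intro j hj; have := h' 54 j hj; rw [s2] at this; exact this.symm
  · intro j hj; simp at hj

/-- the points in Euclidean space. -/
noncomputable def q (i : Fin 75) : EuclideanSpace ℝ (Fin 3) :=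
  !₂[((pt i).1 : ℝ) / 10000, ((pt i).2.1 : ℝ) / 10000, ((pt i).2.2 : ℝ) / 10000]

theorem dist_q (i j : Fin 75) : dist (q i) (q j) = Real.sqrt ((D (pt i) (pt j) : ℤ) / 100000000) := by
  rw [EuclideanSpace.dist_eq]
  congr 1
  simp [q, Fin.sum_univ_three, D, Real.dist_eq, sq_abs]
  ring

theorem dist_q_le (i j : Fin 75) : dist (q i) (q j) ≤ 1 := by
  rw [dist_q]
  have := pt_dist i j i.2 j.2
  have h : ((D (pt i) (pt j) : ℤ) : ℝ) ≤ 100000000 := by exact_mod_cast this
  have h2 : ((D (pt i) (pt j) : ℤ) : ℝ) / 100000000 ≤ 1 := by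
    rw [div_le_one (by norm_num)]
    exact h
  calc Real.sqrt (((D (pt i) (pt j) : ℤ) : ℝ) / 100000000) ≤ Real.sqrt 1 := Real.sqrt_le_sqrt h2
    _ = 1 := Real.sqrt_one

theorem dist_q_eq : dist (q 12) (q 13) = 1 := by
  rw [dist_q]
  have : D (pt ((12 : Fin 75) : ℕ)) (pt ((13 : Fin 75) : ℕ)) = 100000000 := diam_eq
  rw [this]
  norm_num

/-- the convex body. -/
noncomputable def K : Set (EuclideanSpace ℝ (Fin 3)) := convexHull ℝ (Set.range q)

theorem K_convex : Convex ℝ K := convex_convexHull _ _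

theorem K_compact : IsCompact K := (Set.finite_range q).isCompact_convexHull (𝕜 := ℝ)

theorem K_diam : Metric.diam K = 1 := by
  unfold K
  rw [convexHull_diam]
  apply le_antisymm
  · apply Metric.diam_le_of_forall_dist_le (by norm_num)
    rintro _ ⟨i, rfl⟩ _ ⟨j, rfl⟩
    exact dist_q_le i j
  · rw [← dist_q_eq]
    exact Metric.dist_le_diam_of_mem (Set.finite_range q).isBounded ⟨12, rfl⟩ ⟨13, rfl⟩

theorem K_interior : (interior K).Nonempty := by
  unfold K
  rw [interior_convexHull_nonempty_iff_affineSpan_eq_top]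
  have hne : (Set.range q).Nonempty := ⟨q 0, 0, rfl⟩
  rw [← AffineSubspace.direction_eq_top_iff_of_nonempty ((affineSpan_nonempty ℝ).2 hne),
    direction_affineSpan, eq_top_iff]
  intro x _
  have p0 : pt 0 = (95, 0, 4999) := by decide +kernel
  have p2 : pt 2 = (95, 0, -4999) := by decide +kernel
  have p12 : pt 12 = (2886, -5000, 0) := by decide +kernel
  have p13 : pt 13 = (2886, 5000, 0) := by decide +kernel
  have p14 : pt 14 = (-5773, 0, 0) := by decide +kernel
  have hx : x = (x 1 + (x 0 / (8659 / 10000)) * (1 / 2)) • (q 13 -ᵥ q 12) +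
      (x 2 / (9998 / 10000)) • (q 0 -ᵥ q 2) + (-(x 0 / (8659 / 10000))) • (q 14 -ᵥ q 12) := by
    ext i
    fin_cases i
    · simp [q, p0, p2, p12, p13, p14]; ring
    · simp [q, p0, p2, p12, p13, p14]; ring
    · simp [q, p0, p2, p12, p13, p14]; ring
  rw [hx]
  have hm : ∀ i j : Fin 75, q i -ᵥ q j ∈ vectorSpan ℝ (Set.range q) := fun i j =>
    vsub_mem_vectorSpan ℝ ⟨i, rfl⟩ ⟨j, rfl⟩
  exact Submodule.add_mem _ (Submodule.add_mem _ (Submodule.smul_mem _ _ (hm _ _))
    (Submodule.smul_mem _ _ (hm _ _))) (Submodule.smul_mem _ _ (hm _ _))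

/-- Every cover of `K` by four subsets has a member of squared diameter at least `0.789`. -/
theorem main (A : Fin 4 → Set (EuclideanSpace ℝ (Fin 3))) (hA : ∀ i, A i ⊆ K)
    (hU : (⋃ i, A i) = K) : ∃ i, Real.sqrt (789 / 1000) ≤ Metric.diam (A i) := by
  by_contra hcon
  push Not at hcon
  have hmem : ∀ i : Fin 75, ∃ k, q i ∈ A k := by
    intro i
    have : q i ∈ ⋃ i, A i := by
      rw [hU]
      exact subset_convexHull ℝ _ ⟨i, rfl⟩
    simpa using this
  choose f hf using hmem
  refine no_col (fun i => if h : i < 75 then f ⟨i, h⟩ else 0) ?_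
  intro i j hij e
  obtain ⟨hi, hj⟩ := adj_lt i j hij
  simp only [hi, hj, dif_pos] at e
  have hd := adj_dist i j hij
  have h1 : q ⟨i, hi⟩ ∈ A (f ⟨i, hi⟩) := hf _
  have h2 : q ⟨j, hj⟩ ∈ A (f ⟨i, hi⟩) := by rw [e]; exact hf _
  have hb : Bornology.IsBounded (A (f ⟨i, hi⟩)) := K_compact.isBounded.subset (hA _)
  have h3 := Metric.dist_le_diam_of_mem hb h1 h2
  have h4 := lt_of_le_of_lt h3 (hcon _)
  rw [dist_q] at h4
  have h5 : Real.sqrt (789 / 1000) ≤
      Real.sqrt (((D (pt ((⟨i, hi⟩ : Fin 75) : ℕ)) (pt ((⟨j, hj⟩ : Fin 75) : ℕ)) : ℤ) : ℝ) /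
        100000000) := by
    apply Real.sqrt_le_sqrt
    have : ((78900000 : ℤ) : ℝ) ≤ ((D (pt i) (pt j) : ℤ) : ℝ) := by exact_mod_cast hd
    rw [le_div_iff₀ (by norm_num)]
    simp only
    push_cast at this
    linarith
  exact absurd h4 (not_lt.2 h5)

theorem const_lt : Real.sqrt ((3 + Real.sqrt 3) / 6) < Real.sqrt (789 / 1000) := by
  apply Real.sqrt_lt_sqrt
  · positivity
  · have h : Real.sqrt 3 < 1734 / 1000 := by
      rw [Real.sqrt_lt' (by norm_num)]
      norm_num
    linarith

end Pool.Agent.Gale
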