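import Pool.Agent.W_MP_5f563a_co.Data2

set_option autoImplicit false
set_option maxRecDepth 100000

namespace Pool.Agent.Gale2

open Gale (chk chk_sound D perm_exists)

/-- adjacency mask of vertex `i`. -/
def adj (i : ℕ) : ℕ := adjL.getD i 0

/-- `i`-th point. -/
def pt (i : ℕ) : ℤ × ℤ × ℤ := pts.getD i (0, 0, 0)

theorem tree_ok : chk adj tree (adj 68) (adj 70) (adj 71) 0 = true := by decide +kernel

theorem tri_ok : (adj 68).testBit 70 = true ∧ (adj 68).testBit 71 = true ∧
    (adj 70).testBit 71 = true := by decide +kernel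

theorem adj_ok : (List.range 86).all (fun i => (List.range 86).all (fun j =>
    !(adj i).testBit j || decide (790321000000 ≤ D (pt i) (pt j)))) = true := by decide +kernel

theorem adj_bd : adjL.all (fun m => decide (m < 2 ^ 86)) = true ∧ adjL.length = 86 := by
  decide +kernel

theorem diam_ok : (List.range 86).all (fun i => (List.range 86).all (fun j =>
    decide (D (pt i) (pt j) ≤ 1000000000000))) = true := by decide +kernel

theorem diam_eq : D (pt 84) (pt 85) = 1000000000000 := by decide +kernel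

theorem adj_lt (i j : ℕ) (h : (adj i).testBit j = true) : i < 86 ∧ j < 86 := by
  have hi : i < 86 := by
    by_contra hi
    have : adj i = 0 := by
      unfold adj
      rw [List.getD_eq_default]
      rw [adj_bd.2]; omega
    rw [this] at h
    simp at h
  refine ⟨hi, ?_⟩
  have hlen : i < adjL.length := by rw [adj_bd.2]; exact hi
  have hm : adj i = adjL[i] := by
    unfold adj
    rw [List.getD_eq_getElem _ _ hlen]
  have hlt : adj i < 2 ^ 86 := by
    have := List.all_eq_true.1 adj_bd.1 (adjL[i]) (List.getElem_mem hlen)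
    rw [hm]
    simpa using this
  by_contra hj
  have : (adj i).testBit j = false := by
    apply Nat.testBit_lt_two_pow
    exact lt_of_lt_of_le hlt (Nat.pow_le_pow_right (by norm_num) (by omega))
  rw [this] at h
  exact absurd h (by simp)

theorem adj_dist (i j : ℕ) (h : (adj i).testBit j = true) : 790321000000 ≤ D (pt i) (pt j) := by
  obtain ⟨hi, hj⟩ := adj_lt i j h
  have h1 := List.all_eq_true.1 adj_ok i (List.mem_range.2 hi)
  have h2 := List.all_eq_true.1 h1 j (List.mem_range.2 hj)
  rw [h] at h2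
  simpa using h2

theorem pt_dist (i j : ℕ) (hi : i < 86) (hj : j < 86) : D (pt i) (pt j) ≤ 1000000000000 := by
  have h1 := List.all_eq_true.1 diam_ok i (List.mem_range.2 hi)
  have h2 := List.all_eq_true.1 h1 j (List.mem_range.2 hj)
  simpa using h2

/-- The graph is not `4`-colourable. -/
theorem no_col (col : ℕ → Fin 4) (h : ∀ i j, (adj i).testBit j = true → col i ≠ col j) :
    False := by
  obtain ⟨h1, h2, h3⟩ := tri_ok
  obtain ⟨σ, s0, s1, s2⟩ := perm_exists _ _ _ (h _ _ h1) (h _ _ h2) (h _ _ h3)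
  have h' : ∀ i j, (adj i).testBit j = true → σ (col i) ≠ σ (col j) := fun i j hij e =>
    h i j hij (σ.injective e)
  refine chk_sound adj (fun i => σ (col i)) h' tree (adj 68) (adj 70) (adj 71) 0 ?_ ?_ ?_ ?_ tree_ok
  · intro j hj; have := h' 68 j hj; rw [s0] at this; exact this.symm
  · intro j hj; have := h' 70 j hj; rw [s1] at this; exact this.symm
  · intro j hj; have := h' 71 j hj; rw [s2] at this; exact this.symm
  · intro j hj; simp at hj

/-- the points in Euclidean space. -/
noncomputable def q (i : Fin 86) : EuclideanSpace ℝ (Fin 3) :=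
  !₂[((pt i).1 : ℝ) / 1000000, ((pt i).2.1 : ℝ) / 1000000, ((pt i).2.2 : ℝ) / 1000000]

theorem dist_q (i j : Fin 86) : dist (q i) (q j) = Real.sqrt ((D (pt i) (pt j) : ℤ) / 1000000000000) := by
  rw [EuclideanSpace.dist_eq]
  congr 1
  simp [q, Fin.sum_univ_three, D, Real.dist_eq, sq_abs]
  ring

theorem dist_q_le (i j : Fin 86) : dist (q i) (q j) ≤ 1 := by
  rw [dist_q]
  have := pt_dist i j i.2 j.2
  have h : ((D (pt i) (pt j) : ℤ) : ℝ) ≤ 1000000000000 := by exact_mod_cast this
  have h2 : ((D (pt i) (pt j) : ℤ) : ℝ) / 1000000000000 ≤ 1 := by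
    rw [div_le_one (by norm_num)]
    exact h
  calc Real.sqrt (((D (pt i) (pt j) : ℤ) : ℝ) / 1000000000000) ≤ Real.sqrt 1 := Real.sqrt_le_sqrt h2
    _ = 1 := Real.sqrt_one

theorem dist_q_eq : dist (q 84) (q 85) = 1 := by
  rw [dist_q]
  have : D (pt ((84 : Fin 86) : ℕ)) (pt ((85 : Fin 86) : ℕ)) = 1000000000000 := diam_eq
  rw [this]
  norm_num

/-- the convex body. -/
noncomputable def K : Set (EuclideanSpace ℝ (Fin 3)) := convexHull ℝ (Set.range q)

theorem K_convex : Convex ℝ K := convex_convexHull _ _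

theorem K_compact : IsCompact K := (Set.finite_range q).isCompact_convexHull (𝕜 := ℝ)

theorem K_diam : Metric.diam K = 1 := by
  unfold K
  rw [convexHull_diam]
  apply le_antisymm
  · apply Metric.diam_le_of_forall_dist_le (by norm_num)
    rintro _ ⟨i, rfl⟩ _ ⟨j, rfl⟩
    exact dist_q_le i j
  · rw [← dist_q_eq]
    exact Metric.dist_le_diam_of_mem (Set.finite_range q).isBounded ⟨84, rfl⟩ ⟨85, rfl⟩

theorem K_interior : (interior K).Nonempty := by
  unfold K
  rw [interior_convexHull_nonempty_iff_affineSpan_eq_top]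
  have hne : (Set.range q).Nonempty := ⟨q 0, 0, rfl⟩
  rw [← AffineSubspace.direction_eq_top_iff_of_nonempty ((affineSpan_nonempty ℝ).2 hne),
    direction_affineSpan, eq_top_iff]
  intro x _
  have p0 : pt 0 = (7731, 0, 499950) := by decide +kernel
  have p2 : pt 2 = (7731, 0, -499950) := by decide +kernel
  have p7 : pt 7 = (-536077, 0, 185637) := by decide +kernel
  have p84 : pt 84 = (288563, 500000, 0) := by decide +kernel
  have p85 : pt 85 = (288563, -500000, 0) := by decide +kernel
  have hx : x = (x 1 - x 0 / (824640 / 1000000) * (1 / 2)) • (q 84 -ᵥ q 85) +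
      ((x 2 + x 0 / (824640 / 1000000) * (185637 / 1000000)) / (999900 / 1000000)) •
        (q 0 -ᵥ q 2) +
      (-(x 0 / (824640 / 1000000))) • (q 7 -ᵥ q 84) := by
    ext i
    fin_cases i
    · simp [q, p0, p2, p7, p84, p85]; ring
    · simp [q, p0, p2, p7, p84, p85]; ring
    · simp [q, p0, p2, p7, p84, p85]; ring
  rw [hx]
  have hm : ∀ i j : Fin 86, q i -ᵥ q j ∈ vectorSpan ℝ (Set.range q) := fun i j =>
    vsub_mem_vectorSpan ℝ ⟨i, rfl⟩ ⟨j, rfl⟩
  exact Submodule.add_mem _ (Submodule.add_mem _ (Submodule.smul_mem _ _ (hm _ _))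
    (Submodule.smul_mem _ _ (hm _ _))) (Submodule.smul_mem _ _ (hm _ _))

/-- Every cover of `K` by four subsets has a member of diameter at least `0.889`. -/
theorem main (A : Fin 4 → Set (EuclideanSpace ℝ (Fin 3)))
    (hU : (⋃ i, A i) = K) : ∃ i, (0.889 : ℝ) ≤ Metric.diam (A i) := by
  have hA : ∀ i, A i ⊆ K := fun i => hU ▸ Set.subset_iUnion A i
  have h889 : (0.889 : ℝ) = Real.sqrt (0.889 ^ 2) := by
    rw [Real.sqrt_sq (by norm_num)]
  rw [h889]
  by_contra hcon
  push Not at hcon
  have hmem : ∀ i : Fin 86, ∃ k, q i ∈ A k := by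
    intro i
    have : q i ∈ ⋃ i, A i := by
      rw [hU]
      exact subset_convexHull ℝ _ ⟨i, rfl⟩
    simpa using this
  choose f hf using hmem
  refine no_col (fun i => if h : i < 86 then f ⟨i, h⟩ else 0) ?_
  intro i j hij e
  obtain ⟨hi, hj⟩ := adj_lt i j hij
  simp only [hi, hj, dif_pos] at e
  have hd := adj_dist i j hij
  have h1 : q ⟨i, hi⟩ ∈ A (f ⟨i, hi⟩) := hf _
  have h2 : q ⟨j, hj⟩ ∈ A (f ⟨i, hi⟩) := by rw [e]; exact hf _
  have hb : Bornology.IsBounded (A (f ⟨i, hi⟩)) := K_compact.isBounded.subset (hA _)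
  have h3 := Metric.dist_le_diam_of_mem hb h1 h2
  have h4 := lt_of_le_of_lt h3 (hcon _)
  rw [dist_q] at h4
  have h5 : Real.sqrt (0.889 ^ 2) ≤
      Real.sqrt (((D (pt ((⟨i, hi⟩ : Fin 86) : ℕ)) (pt ((⟨j, hj⟩ : Fin 86) : ℕ)) : ℤ) : ℝ) /
        1000000000000) := by
    apply Real.sqrt_le_sqrt
    have : ((790321000000 : ℤ) : ℝ) ≤ ((D (pt i) (pt j) : ℤ) : ℝ) := by exact_mod_cast hd
    rw [le_div_iff₀ (by norm_num)]
    simp only
    push_cast at this
    norm_num at this ⊢
    linarith
  exact absurd h4 (not_lt.2 h5)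

end Pool.Agent.Gale2
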